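import Pool.Agent.P.MP_f97ab1_an.H.Bohr

set_option autoImplicit false

namespace Pool.Agent.Results.MP_f97ab1_an.PolyBasis

open Filter Topology

/-- The value `P(it)` of the Dirichlet polynomial `P(s) = ∑ a n * n ^ (-s)`. -/
noncomputable def dval (a : ℕ+ →₀ ℂ) (t : ℝ) : ℂ :=
  a.sum fun n c => c * ((n : ℕ) : ℂ) ^ (-(Complex.I * t))

/-- The mean of `|P(it)|` over `[-T, T]`. -/
noncomputable def mean (a : ℕ+ →₀ ℂ) (T : ℝ) : ℝ := (2 * T)⁻¹ * ∫ t in (-T)..T, ‖dval a t‖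

/-- `X` with the linear map `J` is a completion of the Dirichlet polynomials in the norm
given by the limit of the means. -/
def IsH1 (X : Type) [NormedAddCommGroup X] [NormedSpace ℂ X] (J : (ℕ+ →₀ ℂ) →ₗ[ℂ] X) : Prop :=
  CompleteSpace X ∧ DenseRange J ∧ ∀ a, Tendsto (mean a) atTop (𝓝 ‖J a‖)

open Pool.Agent.P.MP_f97ab1_an in
theorem result :
    (∃ (X : Type) (_ : NormedAddCommGroup X) (_ : NormedSpace ℂ X) (J : (ℕ+ →₀ ℂ) →ₗ[ℂ] X),
      IsH1 X J) ∧
    ∃ b : Module.Basis ℕ ℂ (ℕ+ →₀ ℂ),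
      ∀ (X : Type) [NormedAddCommGroup X] [NormedSpace ℂ X] (J : (ℕ+ →₀ ℂ) →ₗ[ℂ] X),
        IsH1 X J → ∃ B : SchauderBasis ℂ X, ∀ k, B k = J (b k) := by
  constructor
  · let T : (ℕ+ →₀ ℂ) →ₗ[ℂ] MeasureTheory.Lp ℂ 1 mu := (toL.comp An.subtype).comp H.bohr.toLinearMap
    let S := (LinearMap.range T).topologicalClosure
    refine ⟨S, inferInstance, inferInstance,
      T.codRestrict S fun a => Submodule.le_topologicalClosure _ ⟨a, rfl⟩, ?_, ?_, fun a => ?_⟩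
    · exact (Submodule.isClosed_topologicalClosure _).completeSpace_coe
    · refine Subtype.dense_iff.2 (closure_mono ?_)
      rintro _ ⟨a, rfl⟩
      exact ⟨_, ⟨a, rfl⟩, rfl⟩
    · exact H.mean_tendsto a
  · obtain ⟨b, K, hK, h⟩ := H.poly_basis
    refine ⟨b, fun X _ _ J hJ => ?_⟩
    have hn : ∀ a, ‖J a‖ = ‖toL (H.bohr a).1‖ := fun a =>
      tendsto_nhds_unique (hJ.2.2 a) (H.mean_tendsto a)
    refine H.schauder_of_basis b K hK J hJ.2.1 (fun a ha => ?_) fun N a => ?_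
    · have h1 := hn a
      rw [ha, norm_zero, eq_comm, norm_eq_zero, ← map_zero toL] at h1
      exact H.bohr.map_eq_zero_iff.1 (Subtype.ext (toL_injective h1))
    · rw [hn, hn]
      exact h N a

end Pool.Agent.Results.MP_f97ab1_an.PolyBasis
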